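import Pool.Agent.H16.UFL.Defs

/-!
# Universally flexible loops: basic lemmas
-/

namespace H16UFL

universe u

section loop

variable {Q : Type u} [Lp Q]

@[simp] lemma one_mul_ (x : Q) : 1 * x = x := Lp.one_mul' x
@[simp] lemma mul_one_ (x : Q) : x * 1 = x := Lp.mul_one' x
@[simp] lemma mul_ldiv_ (a b : Q) : a * ldiv a b = b := Lp.mul_ldiv a b
@[simp] lemma ldiv_mul_ (a b : Q) : ldiv a (a * b) = b := Lp.ldiv_mul a b
@[simp] lemma div_mul_ (a b : Q) : (b / a) * a = b := Lp.div_mul' a b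
@[simp] lemma mul_div_ (a b : Q) : (b * a) / a = b := Lp.mul_div' a b

lemma lcancel {a x y : Q} (h : a * x = a * y) : x = y := by
  rw [← ldiv_mul_ a x, h, ldiv_mul_]

lemma rcancel {a x y : Q} (h : x * a = y * a) : x = y := by
  rw [← mul_div_ a x, h, mul_div_]

lemma eq_ldiv {a x b : Q} (h : a * x = b) : x = ldiv a b := by
  rw [← h, ldiv_mul_]

lemma eq_div {a x b : Q} (h : x * a = b) : x = b / a := by
  rw [← h, mul_div_]

@[simp] lemma ldiv_one_ (x : Q) : ldiv 1 x = x := by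
  conv_rhs => rw [← mul_ldiv_ 1 x, one_mul_]

@[simp] lemma div_one_ (x : Q) : x / 1 = x := by
  conv_rhs => rw [← div_mul_ 1 x, mul_one_]

@[simp] lemma ldiv_self_ (x : Q) : ldiv x x = 1 := (eq_ldiv (mul_one_ x)).symm
@[simp] lemma div_self_ (x : Q) : x / x = 1 := (eq_div (one_mul_ x)).symm

@[simp] lemma iv_one : iv (1 : Q) = 1 := by simp [iv]

@[simp] lemma mul_iv (x : Q) : x * iv x = 1 := by simp [iv]

end loop

section uf

variable {Q : Type u} [Lp Q] (hU : UF Q)

include hU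

/-- `L_c L_a⁻¹` commutes with `R_d R_b⁻¹` if `c b = a d` -/
lemma uf_comm {a b c d : Q} (h : c * b = a * d) (y : Q) :
    c * ldiv a ((y / b) * d) = ((c * ldiv a y) / b) * d := by
  have h1 := hU a b (c * b) y
  unfold circ at h1
  rw [mul_div_] at h1
  have h2 : ldiv a (c * b) = d := by rw [h, ldiv_mul_]
  rw [h2] at h1
  exact h1

lemma flex (x y : Q) : x * (y * x) = (x * y) * x := by
  have h := uf_comm hU (a := 1) (b := 1) (c := x) (d := x) (by simp) y
  simpa using h

@[simp] lemma iv_mul (x : Q) : iv x * x = 1 := by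
  apply lcancel (a := x)
  rw [flex hU, mul_iv, one_mul_, mul_one_]

lemma iv_iv (x : Q) : iv (iv x) = x := by
  apply lcancel (a := iv x)
  rw [mul_iv, iv_mul hU]

omit hU in
lemma one_div_iv (x : Q) : 1 / iv x = x := (eq_div (mul_iv x)).symm

lemma one_div_ (x : Q) : 1 / x = iv x := (eq_div (iv_mul hU x)).symm

/-- the reflection `τ_a` is an involution -/
lemma tau_eq (a w : Q) : a * iv (w / iv a) = iv (ldiv a w) * iv a := by
  -- in the isotope at `(a, iv a)` with identity `1`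
  have h1 : circ a (iv a) w (a * iv (w / iv a)) = 1 := by
    unfold circ
    rw [ldiv_mul_, mul_iv]
  have h2 := hU a (iv a) w (a * iv (w / iv a))
  rw [h1] at h2
  have h3 : circ a (iv a) 1 w = w := by
    unfold circ
    rw [one_div_iv, mul_ldiv_]
  rw [h3] at h2
  unfold circ at h2
  have h4 : (w / iv a) * iv a = w := div_mul_ _ _
  have h5 : ldiv a (a * iv (w / iv a) / iv a * ldiv a w) = iv a := by
    apply lcancel (a := w / iv a)
    rw [h2, h4]
  have h6 : a * iv (w / iv a) / iv a * ldiv a w = 1 := by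
    rw [← mul_ldiv_ a (a * iv (w / iv a) / iv a * ldiv a w), h5, mul_iv]
  have h7 : a * iv (w / iv a) / iv a = iv (ldiv a w) := by
    rw [← one_div_ hU (ldiv a w)]
    exact eq_div h6
  rw [← h7, div_mul_]

end uf

section central

variable {Q : Type u} [Lp Q] {z : Q}

lemma IsCentral.comm (hz : IsCentral z) (x : Q) : z * x = x * z := hz.1 x

/-- pull a central element out of the right factor -/
lemma IsCentral.mul_cr (hz : IsCentral z) (x y : Q) : x * (y * z) = (x * y) * z :=
  (hz.2.1 x y).symm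

/-- pull a central element out of the left factor -/
lemma IsCentral.mul_cl (hz : IsCentral z) (x y : Q) : (x * z) * y = (x * y) * z := by
  rw [hz.2.2.1, hz.comm, hz.mul_cr]

lemma IsCentral.div_c (hz : IsCentral z) (x y : Q) : (x * z) / y = (x / y) * z := by
  symm
  apply eq_div
  rw [hz.mul_cl, div_mul_]

lemma IsCentral.ldiv_c (hz : IsCentral z) (x y : Q) : ldiv x (y * z) = ldiv x y * z := by
  symm
  apply eq_ldiv
  rw [hz.mul_cr, mul_ldiv_]

lemma isCentral_one : IsCentral (1 : Q) := by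
  refine ⟨?_, ?_, ?_, ?_⟩ <;> intros <;> simp

lemma IsCentral.mul {z w : Q} (hz : IsCentral z) (hw : IsCentral w) : IsCentral (z * w) := by
  refine ⟨fun x => ?_, fun x y => ?_, fun x y => ?_, fun x y => ?_⟩
  · rw [hw.mul_cl z x, hz.comm x, hw.mul_cr x z]
  · rw [hw.mul_cr (x * y) z, hw.mul_cr y z, hw.mul_cr x (y * z), hz.mul_cr x y]
  · rw [hw.mul_cr x z, hw.mul_cl (x * z) y, hz.mul_cl x y, hw.mul_cl z y, hz.comm y,
      hw.mul_cr x (y * z), hz.mul_cr x y]
  · rw [hw.mul_cl z x, hw.mul_cl (z * x) y, hw.mul_cl z (x * y), hz.2.2.2 x y]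

lemma IsCentral.iv {z : Q} (hz : IsCentral z) : IsCentral (iv z) := by
  have h1 : z * H16UFL.iv z = 1 := mul_iv z
  have h2 : H16UFL.iv z * z = 1 := by rw [← hz.comm, h1]
  -- `x * iv z` is the solution of `y * z = x`
  have key : ∀ x : Q, (x * H16UFL.iv z) * z = x := fun x => by
    rw [hz.2.1, h2, mul_one_]
  have key2 : ∀ x : Q, (H16UFL.iv z * x) * z = x := fun x => by
    rw [← hz.mul_cl, h2, one_mul_]
  refine ⟨fun x => ?_, fun x y => ?_, fun x y => ?_, fun x y => ?_⟩
  · apply rcancel (a := z)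
    rw [key, key2]
  · apply rcancel (a := z)
    rw [key, ← hz.mul_cr, key]
  · apply rcancel (a := z)
    rw [← hz.mul_cl, key, ← hz.mul_cr, key2]
  · apply rcancel (a := z)
    rw [← hz.mul_cl, key2, key2]

lemma IsCentral.mul_iv_mul (hz : IsCentral z) (x : Q) : (x * H16UFL.iv z) * z = x := by
  rw [hz.2.1, ← hz.comm, mul_iv, mul_one_]

lemma IsCentral.mul_mul_iv (hz : IsCentral z) (x : Q) : (x * z) * H16UFL.iv z = x := by
  rw [hz.iv.2.1, mul_iv, mul_one_]

lemma IsCentral.iv_mul (hz : IsCentral z) (x : Q) :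
    H16UFL.iv (x * z) = H16UFL.iv x * H16UFL.iv z := by
  apply lcancel (a := x * z)
  rw [mul_iv, hz.mul_cl, hz.iv.mul_cr, mul_iv, one_mul_, ← hz.comm, mul_iv]

lemma IsCentral.div_cr (hz : IsCentral z) (x y : Q) : x / (y * z) = (x / y) * H16UFL.iv z := by
  symm
  apply eq_div
  rw [hz.mul_cr, hz.iv.mul_cl, hz.mul_iv_mul, div_mul_]

lemma IsCentral.ldiv_cr (hz : IsCentral z) (x y : Q) :
    ldiv (y * z) x = ldiv y x * H16UFL.iv z := by
  symm
  apply eq_ldiv
  rw [hz.mul_cl, hz.iv.mul_cr, hz.mul_iv_mul, mul_ldiv_]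

end central

end H16UFL
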