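import Pool.Agent.H16.UFL.Defs

/-!
# The inverse property
-/

namespace H16UFL

universe u

/-- the inverse property: `x⁻¹ (x y) = y` and `(y x) x⁻¹ = y` -/
def IP (Q : Type u) [Lp Q] : Prop := ∀ x y : Q, iv x * (x * y) = y ∧ (y * x) * iv x = y

/-- `p` is a surjective homomorphism whose kernel is contained in the centre of `E` -/
structure IsCentralExt {E Q : Type u} [Lp E] [Lp Q] (p : E → Q) : Prop where
  epi : IsEpi p
  central : ∀ k : E, p k = 1 → IsCentral k

end H16UFL
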