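import Pool.Agent.H16.UFL.Ext
import Pool.Agent.H16.UFL.InvProp

/-!
# Central extensions of universally flexible loops with the inverse property
-/

namespace H16UFL

universe u

section exact

variable {E : Type u} [Lp E] (hU : UF E)

include hU

/-- `L_{a'}` commutes with `R_a` -/
lemma iv_mul_mul (a v : E) : (iv a * v) * a = iv a * (v * a) := by
  have h1 : iv a * a = 1 * 1 := by rw [iv_mul hU, one_mul_]
  have h := uf_comm hU h1 (v * a)
  rw [mul_div_, mul_one_, ldiv_one_, ldiv_one_, mul_one_] at h
  rw [h, div_mul_]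

/-- a condition which implies the semi-automorphic inverse property -/
lemma saip_of_S (hS : ∀ x a : E, iv (a * (iv a * iv x)) = (x * a) * iv a) : SAIP E := by
  intro a y
  set z := iv a * (iv y / a) with hz
  have h1 : z * a = iv a * iv y := by
    rw [hz, iv_mul_mul hU, div_mul_]
  have h2 : iv a * iv z = y * a := by
    have h3 := tau_eq hU (iv a) (z * a)
    rw [iv_iv hU, mul_div_, h1, ldiv_mul_, iv_iv hU] at h3
    exact h3
  have h4 := hS z a
  rw [h2, h1] at h4
  rw [h4, flex hU]

end exact

namespace CExt

variable {E Q : Type u} [Lp E] [Lp Q] (C : CExt E Q)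

include C in
/-- a central extension of a universally flexible loop with the inverse property has the
semi-automorphic inverse property -/
theorem saip_of_ip (hI : IP Q) : SAIP E := by
  have hU := C.hU
  apply saip_of_S hU
  intro x g
  -- the defect `k` of the right inverse property
  have hk0 : C.p x = C.p ((x * g) * iv g) := by
    rw [C.hp.map_mul, C.hp.map_mul, C.hp.map_iv, (hI _ _).2]
  obtain ⟨k, hk⟩ := C.exists_act hk0
  -- `(x g') g = x k`
  have h3 : (x * iv g) * g = C.act x k := by
    have h := uf_comm hU (show (x * g) * 1 = x * g from mul_one_ _) (x * iv g)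
    rw [div_one_, div_one_, ldiv_mul_, hk, C.act_mul] at h
    have h' : ldiv x ((x * iv g) * g) = C.act 1 k := by
      apply lcancel (a := x * g)
      rw [h, C.mul_act, mul_one_]
    rw [← mul_ldiv_ x ((x * iv g) * g), h', C.mul_act, mul_one_]
  -- `h = x \ g`
  set h := ldiv x g with hh
  have hxh : x * h = g := mul_ldiv_ _ _
  have e4 : x * (iv g * h) = (x / g) * h := by
    have e := uf_comm hU (show x * h = 1 * g by rw [hxh, one_mul_]) (iv g * h)
    rw [ldiv_one_, ldiv_one_, mul_div_, iv_mul hU, mul_one_] at e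
    have e' : (x * (iv g * h)) / h = x / g := eq_div e.symm
    rw [← e', div_mul_]
  have e5 : x / g = C.act (x * iv g) k⁻¹ := by
    have e : C.act (x * iv g) k⁻¹ * g = x := by
      rw [C.act_mul, h3, C.act_act, mul_inv_cancel, C.act_one]
    exact (eq_div e).symm
  have h4 : (x * iv g) * h = C.act (x * (iv g * h)) k := by
    rw [e4, e5, C.act_mul, C.act_act, inv_mul_cancel, C.act_one]
  have h5 : h = C.act (g * (iv g * h)) k := by
    have e := uf_comm hU (show (x * h) * 1 = x * h from mul_one_ _) (x * iv g)
    rw [div_one_, div_one_, ldiv_mul_, hxh, mul_iv, one_mul_, h4, C.ldiv_act, ldiv_mul_,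
      C.mul_act] at e
    exact e.symm
  -- `h = x' g l`
  have hl0 : C.p (iv x * g) = C.p h := by
    rw [hh, C.hp.map_mul, C.hp.map_iv, C.hp.map_ldiv]
    conv_lhs => rw [← mul_ldiv_ (C.p x) (C.p g)]
    rw [(hI _ _).1]
  obtain ⟨l, hl⟩ := C.exists_act hl0
  have h6 : iv x * g = C.act (g * (iv g * (iv x * g))) k := by
    rw [hl, C.mul_act, C.mul_act, C.act_act, mul_comm l k, ← C.act_act] at h5
    exact rcancel (a := l.1) h5
  have h7 : iv x = C.act (g * (iv g * iv x)) k := by
    rw [← iv_mul_mul hU, flex hU, ← C.act_mul] at h6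
    exact rcancel h6
  have h8 : g * (iv g * iv x) = C.act (iv x) k⁻¹ := by
    conv_rhs => rw [h7]
    rw [C.act_act, mul_inv_cancel, C.act_one]
  rw [h8, C.iv_act, inv_inv, iv_iv hU, hk]

end CExt

end H16UFL
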