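import Mathlib

/-!
# Universally flexible loops: definitions

Loops, principal isotopes, universal flexibility, the antiautomorphic and the semi-automorphic
inverse property, central elements, diassociativity, and the class of loops which are obtained
from diassociative loops by finitely many central extensions whose kernels have no elements of
order two.
-/

namespace H16UFL

universe u

/-- A loop: a set with a multiplication, a two-sided identity and unique left and right division
(`ldiv a b` is the solution `x` of `a * x = b`, and `b / a` the solution `y` of `y * a = b`). -/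
class Lp (Q : Type u) extends Mul Q, One Q, Div Q where
  /-- left division -/
  ldiv : Q → Q → Q
  one_mul' : ∀ x : Q, 1 * x = x
  mul_one' : ∀ x : Q, x * 1 = x
  mul_ldiv : ∀ a b : Q, a * ldiv a b = b
  ldiv_mul : ∀ a b : Q, ldiv a (a * b) = b
  div_mul' : ∀ a b : Q, (b / a) * a = b
  mul_div' : ∀ a b : Q, (b * a) / a = b

export Lp (ldiv)

/-- the (right) inverse of `x`; in a flexible loop it is two-sided -/
def iv {Q : Type u} [Lp Q] (x : Q) : Q := ldiv x 1

/-- the multiplication of the principal isotope of `Q` at `(a, b)`: `x ∘ y = (x / b) (a \ y)` -/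
def circ {Q : Type u} [Lp Q] (a b x y : Q) : Q := (x / b) * ldiv a y

/-- universally flexible: every principal isotope satisfies `x ∘ (y ∘ x) = (x ∘ y) ∘ x` -/
def UF (Q : Type u) [Lp Q] : Prop :=
  ∀ a b x y : Q, circ a b x (circ a b y x) = circ a b (circ a b x y) x

/-- the antiautomorphic inverse property `(x y)⁻¹ = y⁻¹ x⁻¹` -/
def AAIP (Q : Type u) [Lp Q] : Prop := ∀ x y : Q, iv (x * y) = iv y * iv x

/-- the semi-automorphic inverse property `(x y x)⁻¹ = x⁻¹ y⁻¹ x⁻¹` -/
def SAIP (Q : Type u) [Lp Q] : Prop :=
  ∀ x y : Q, iv (x * (y * x)) = iv x * (iv y * iv x)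

/-- `z` is in the centre: it commutes and associates with all elements -/
def IsCentral {Q : Type u} [Lp Q] (z : Q) : Prop :=
  (∀ x : Q, z * x = x * z) ∧ (∀ x y : Q, (x * y) * z = x * (y * z)) ∧
    (∀ x y : Q, (x * z) * y = x * (z * y)) ∧ (∀ x y : Q, (z * x) * y = z * (x * y))

/-- the elements of the subloop generated by `x` and `y` -/
inductive Gen {Q : Type u} [Lp Q] (x y : Q) : Q → Prop
  | fst : Gen x y x
  | snd : Gen x y y
  | unit : Gen x y 1
  | times {a b : Q} : Gen x y a → Gen x y b → Gen x y (a * b)
  | under {a b : Q} : Gen x y a → Gen x y b → Gen x y (ldiv a b)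
  | over {a b : Q} : Gen x y a → Gen x y b → Gen x y (a / b)

/-- every subloop generated by two elements is associative -/
def Diassociative (Q : Type u) [Lp Q] : Prop :=
  ∀ x y a b c : Q, Gen x y a → Gen x y b → Gen x y c → (a * b) * c = a * (b * c)

/-- a surjective homomorphism of loops -/
structure IsEpi {E Q : Type u} [Lp E] [Lp Q] (p : E → Q) : Prop where
  map_mul : ∀ x y : E, p (x * y) = p x * p y
  surj : Function.Surjective p

/-- the loops obtained from diassociative loops by finitely many central extensions whose kernels
have no elements of order two -/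
inductive Tower : (Q : Type u) → Lp Q → Prop
  | base (Q : Type u) (i : Lp Q) (h : @Diassociative Q i) : Tower Q i
  | ext (E Q : Type u) (iE : Lp E) (iQ : Lp Q) (p : E → Q) (hp : @IsEpi E Q iE iQ p)
      (hcen : ∀ k : E, p k = 1 → IsCentral k) (h2 : ∀ k : E, p k = 1 → k * k = 1 → k = 1)
      (hQ : Tower Q iQ) : Tower E iE

end H16UFL
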