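import Pool.Agent.H16.UFL.Quot

/-!
# The functional equations for a central extension
-/

namespace H16UFL

universe u

/-- a central extension of loops with a universally flexible total loop -/
structure CExt (E Q : Type u) [Lp E] [Lp Q] where
  p : E → Q
  hp : IsEpi p
  hcen : ∀ k : E, p k = 1 → IsCentral k
  hU : UF E

namespace CExt

variable {E Q : Type u} [Lp E] [Lp Q] (C : CExt E Q)

/-- the kernel -/
def K : Type u := {k : E // C.p k = 1}

variable {C} in
lemma K.cen (k : C.K) : IsCentral k.1 := C.hcen k.1 k.2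

instance : CommGroup C.K where
  mul a b := ⟨a.1 * b.1, by rw [C.hp.map_mul, a.2, b.2, mul_one_]⟩
  mul_assoc a b c := Subtype.ext ((K.cen c).2.1 a.1 b.1)
  one := ⟨1, C.hp.map_one⟩
  one_mul a := Subtype.ext (one_mul_ a.1)
  mul_one a := Subtype.ext (mul_one_ a.1)
  inv a := ⟨iv a.1, by rw [C.hp.map_iv, a.2, iv_one]⟩
  inv_mul_cancel a := Subtype.ext (iv_mul C.hU a.1)
  mul_comm a b := Subtype.ext ((K.cen a).comm b.1)

/-- the action of the kernel -/
def act (x : E) (k : C.K) : E := x * k.1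

lemma act_act (x : E) (k l : C.K) : C.act (C.act x k) l = C.act x (k * l) :=
  (K.cen l).2.1 x k.1

lemma act_inj {x : E} {k l : C.K} (h : C.act x k = C.act x l) : k = l :=
  Subtype.ext (lcancel h)

lemma act_one (x : E) : C.act x 1 = x := mul_one_ x

lemma mul_act (x y : E) (k : C.K) : x * C.act y k = C.act (x * y) k := (K.cen k).mul_cr x y

lemma act_mul (x y : E) (k : C.K) : C.act x k * y = C.act (x * y) k := (K.cen k).mul_cl x y

lemma act_div (x y : E) (k : C.K) : C.act x k / y = C.act (x / y) k := (K.cen k).div_c x y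

lemma ldiv_act (x y : E) (k : C.K) : ldiv x (C.act y k) = C.act (ldiv x y) k :=
  (K.cen k).ldiv_c x y

lemma iv_act (x : E) (k : C.K) : iv (C.act x k) = C.act (iv x) k⁻¹ := (K.cen k).iv_mul x

lemma div_act (x y : E) (k : C.K) : x / C.act y k = C.act (x / y) k⁻¹ := (K.cen k).div_cr x y

lemma act_ldiv (x y : E) (k : C.K) : ldiv (C.act y k) x = C.act (ldiv y x) k⁻¹ :=
  (K.cen k).ldiv_cr x y

lemma exists_act {x y : E} (h : C.p x = C.p y) : ∃ k : C.K, y = C.act x k := by
  obtain ⟨k, hk, rfl⟩ := C.hp.exists_ker h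
  exact ⟨⟨k, hk⟩, rfl⟩

/-- the reflection `τ_a` -/
def tau (a w : E) : E := a * iv (w / iv a)

include C in
lemma tau_tau (a w : E) : tau a (tau a w) = w := by
  have h1 : tau a w = iv (ldiv a w) * iv a := tau_eq C.hU a w
  rw [h1]
  unfold tau
  rw [mul_div_, iv_iv C.hU, mul_ldiv_]

lemma tau_act (a w : E) (k : C.K) : tau a (C.act w k) = C.act (tau a w) k⁻¹ := by
  unfold tau
  rw [C.act_div, C.iv_act, C.mul_act]

lemma tau_act_index (a w : E) (k : C.K) : tau (C.act a k) w = tau a w := by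
  unfold tau
  rw [C.iv_act, C.div_act, inv_inv, C.iv_act, C.mul_act, C.act_mul, C.act_act, mul_inv_cancel,
    C.act_one]

variable (hA : AAIP Q)

include hA

lemma p_tau (a w : E) : C.p (tau a w) = C.p (iv w) := by
  unfold tau
  rw [C.hp.map_mul, C.hp.map_iv, C.hp.map_div, C.hp.map_iv, iv_div hA, iv_iv (C.hp.uf C.hU),
    mul_ldiv_, C.hp.map_iv]

/-- the defect `T` of the antiautomorphic inverse property: `τ_a (w) = w⁻¹ T a w` -/
def T (a w : E) : C.K := ⟨ldiv (iv w) (tau a w), by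
  rw [C.hp.map_ldiv, C.p_tau hA, ldiv_self_]⟩

lemma tau_eq_T (a w : E) : tau a w = C.act (iv w) (C.T hA a w) := (mul_ldiv_ (iv w) _).symm

lemma T_unique {a w : E} {k : C.K} (h : tau a w = C.act (iv w) k) : C.T hA a w = k := by
  rw [C.tau_eq_T hA] at h
  exact C.act_inj h

lemma T_act (a w : E) (k : C.K) : C.T hA a (C.act w k) = C.T hA a w := by
  apply C.T_unique hA
  rw [C.tau_act, C.iv_act, C.tau_eq_T hA, C.act_act, C.act_act, mul_comm]

lemma T_act_index (a w : E) (k : C.K) : C.T hA (C.act a k) w = C.T hA a w := by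
  apply C.T_unique hA
  rw [C.tau_act_index, C.tau_eq_T hA]

lemma T_congr {a b w v : E} (hab : C.p a = C.p b) (hwv : C.p w = C.p v) :
    C.T hA a w = C.T hA b v := by
  obtain ⟨k, rfl⟩ := C.exists_act hab
  obtain ⟨l, rfl⟩ := C.exists_act hwv
  rw [C.T_act, C.T_act_index]

lemma T_z0 (a : E) : C.T hA a 1 = 1 := by
  apply C.T_unique hA
  unfold tau
  rw [one_div_iv, mul_iv, iv_one, C.act_one]

lemma T_z1 (w : E) : C.T hA 1 w = 1 := by
  apply C.T_unique hA
  unfold tau
  rw [iv_one, div_one_, one_mul_, C.act_one]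

lemma T_inv (a w : E) : C.T hA a (iv w) = C.T hA a w := by
  have h1 := C.tau_tau a w
  rw [C.tau_eq_T hA a w, C.tau_act, C.tau_eq_T hA a (iv w), iv_iv C.hU, C.act_act] at h1
  have h2 : C.act w (C.T hA a (iv w) * (C.T hA a w)⁻¹) = C.act w 1 := by
    rw [h1, C.act_one]
  exact mul_inv_eq_one.1 (C.act_inj h2)

lemma T_coin (a c : E) : C.T hA a (c * iv a) = C.T hA c (c * iv a) := by
  apply C.T_unique hA
  rw [← C.tau_eq_T hA]
  have h1 : tau c (c * iv a) = iv (ldiv c (c * iv a)) * iv c := tau_eq C.hU c _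
  rw [h1]
  unfold tau
  rw [mul_div_, ldiv_mul_, iv_iv C.hU]

/-- `τ_c (φ (τ_a (x)))` for a map `φ` which commutes with the action of the kernel -/
lemma conj_eq (φ : E → E) (hφ : ∀ (x : E) (k : C.K), φ (C.act x k) = C.act (φ x) k) (a c x : E) :
    tau c (φ (tau a x)) =
      C.act (iv (φ (iv x))) (C.T hA c (φ (iv x)) * (C.T hA a x)⁻¹) := by
  rw [C.tau_eq_T hA a x, hφ, C.tau_act, C.tau_eq_T hA c, C.act_act]

omit hA in
lemma rho_act (a c x : E) (k : C.K) : rho a c (C.act x k) = C.act (rho a c x) k := by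
  unfold rho
  rw [C.act_div, C.act_mul]

omit hA in
lemma lam_act (a B c x : E) (k : C.K) : lam a B c (C.act x k) = C.act (lam a B c x) k := by
  unfold lam
  rw [C.ldiv_act, C.mul_act]

include C in
omit hA in
/-- `τ_c R_{c'} R_{a'}⁻¹ τ_a = L_c L_a⁻¹` -/
lemma tau_rho_tau (a c x : E) : tau c (rho a c (tau a x)) = c * ldiv a x := by
  have h1 : tau a x = iv (ldiv a x) * iv a := tau_eq C.hU a x
  rw [h1]
  unfold rho tau
  rw [mul_div_, mul_div_, iv_iv C.hU]

include C in
omit hA in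
/-- `τ_D L_D L_B⁻¹ τ_B = R_{D'} R_{B'}⁻¹` -/
lemma tau_lam_tau (a B c x : E) : tau (fourth a B c) (lam a B c (tau B x)) =
    (x / iv B) * iv (fourth a B c) := by
  have h1 : ∀ y : E, tau (fourth a B c) y =
    iv (ldiv (fourth a B c) y) * iv (fourth a B c) := tau_eq C.hU _
  rw [h1]
  unfold lam tau
  rw [ldiv_mul_, ldiv_mul_, iv_iv C.hU]

include C in
omit hA in
lemma lam_rho (a B c x : E) : lam a B c (rho a c x) = rho a c (lam a B c x) := by
  have h : fourth a B c * iv a = B * iv c := div_mul_ _ _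
  exact uf_comm C.hU h x

include C in
/-- `L_c L_a⁻¹` and `R_{D'} R_{B'}⁻¹` commute -/
lemma comm2 (a B c y : E) :
    c * ldiv a ((y / iv B) * iv (fourth a B c)) =
      ((c * ldiv a y) / iv B) * iv (fourth a B c) := by
  set D := fourth a B c with hD
  have h0 : D * iv a = B * iv c := div_mul_ _ _
  have hQ : C.p (a * iv D) = C.p (c * iv B) := by
    have h1 := congrArg (fun z => iv (C.p z)) h0
    simp only [C.hp.map_mul, C.hp.map_iv] at h1
    rw [hA, hA, iv_iv (C.hp.uf C.hU), iv_iv (C.hp.uf C.hU)] at h1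
    rw [C.hp.map_mul, C.hp.map_iv, C.hp.map_mul, C.hp.map_iv]
    exact h1
  obtain ⟨k, hk⟩ := C.exists_act hQ
  have h2 : c * iv B = a * C.act (iv D) k := by rw [C.mul_act, hk]
  have h3 := uf_comm C.hU h2 y
  rw [C.mul_act, C.ldiv_act, C.mul_act, C.mul_act] at h3
  exact rcancel h3

/-- the functional equation `D` -/
lemma T_D (a B c w : E) :
    C.T hA B w * (C.T hA a w)⁻¹ * C.T hA c (rho a c w) * (C.T hA B (rho a c w))⁻¹
      * C.T hA (fourth a B c) (lam a B c (rho a c w)) * (C.T hA c (lam a B c (rho a c w)))⁻¹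
      * C.T hA a (lam a B c w) * (C.T hA (fourth a B c) (lam a B c w))⁻¹ = 1 := by
  set D := fourth a B c with hD
  set v := iv w with hv
  -- the two operators
  have hP : ∀ x : E, c * ldiv a x =
      C.act (iv (rho a c (iv x))) (C.T hA c (rho a c (iv x)) * (C.T hA a x)⁻¹) := by
    intro x
    rw [← C.tau_rho_tau, C.conj_eq hA _ (C.rho_act a c)]
  have hR : ∀ x : E, (x / iv B) * iv D =
      C.act (iv (lam a B c (iv x))) (C.T hA D (lam a B c (iv x)) * (C.T hA B x)⁻¹) := by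
    intro x
    rw [hD, ← C.tau_lam_tau, C.conj_eq hA _ (C.lam_act a B c)]
  have hc := C.comm2 hA a B c v
  rw [← hD, hR v, hP v, C.ldiv_act, C.mul_act, hP, C.act_div, C.act_mul, hR] at hc
  rw [hv] at hc
  simp only [iv_iv C.hU] at hc
  rw [C.lam_rho a B c w] at hc ⊢
  rw [C.act_act, C.act_act] at hc
  have h1 := C.act_inj hc
  simp only [C.T_inv hA] at h1
  -- an identity in a commutative group
  generalize C.T hA B w = b1 at h1 ⊢
  generalize C.T hA a w = a1 at h1 ⊢
  generalize C.T hA c (rho a c w) = c1 at h1 ⊢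
  generalize C.T hA B (rho a c w) = b2 at h1 ⊢
  generalize C.T hA D (rho a c (lam a B c w)) = d1 at h1 ⊢
  generalize C.T hA c (rho a c (lam a B c w)) = c2 at h1 ⊢
  generalize C.T hA a (lam a B c w) = a2 at h1 ⊢
  generalize C.T hA D (lam a B c w) = d2 at h1 ⊢
  have h2 : c2 * a2⁻¹ * (d2 * b1⁻¹) * (d1 * b2⁻¹ * (c1 * a1⁻¹))⁻¹ = 1 := by
    rw [h1, mul_inv_cancel]
  have h3 : b1 * a1⁻¹ * c1 * b2⁻¹ * d1 * c2⁻¹ * a2 * d2⁻¹ =
      (c2 * a2⁻¹ * (d2 * b1⁻¹) * (d1 * b2⁻¹ * (c1 * a1⁻¹))⁻¹)⁻¹ := by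
    simp only [mul_inv_rev, inv_inv]
    ac_rfl
  rw [h3, h2, inv_one]

end CExt

end H16UFL
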