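import Mathlib

/-!
# The functional equations over a group

`t a w` takes values in an abelian group without elements of order two. The functional equations
`FEG` have only the zero solution.
-/

namespace H16UFL

universe u v

/-- the functional equations for `t : G → G → A` over a group -/
structure FEG (G : Type u) [Group G] (A : Type v) [AddCommGroup A] (t : G → G → A) : Prop where
  z0 : ∀ a, t a 1 = 0
  z1 : ∀ w, t 1 w = 0
  inv : ∀ a w, t a w⁻¹ = t a w
  coin : ∀ a c, t a (c * a⁻¹) = t c (c * a⁻¹)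
  D : ∀ a B c w,
    t B w - t a w + t c (w * a * c⁻¹) - t B (w * a * c⁻¹)
      + t (B * c⁻¹ * a) (B * c⁻¹ * a * B⁻¹ * (w * a * c⁻¹))
      - t c (B * c⁻¹ * a * B⁻¹ * (w * a * c⁻¹))
      + t a (B * c⁻¹ * a * B⁻¹ * w) - t (B * c⁻¹ * a) (B * c⁻¹ * a * B⁻¹ * w) = 0

namespace FEG

variable {G : Type u} [Group G] {A : Type v} [AddCommGroup A] {t : G → G → A}

/-- `t_c (w) = t_c (c⁻¹ w c⁻¹)` -/
lemma two (h : FEG G A t) (c w : G) : t c w = t c (c⁻¹ * (w * c⁻¹)) := by
  have h1 := h.D 1 c c w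
  simp only [mul_one, mul_inv_cancel, one_mul, h.z1] at h1
  have h2 : t c w - t c (c⁻¹ * (w * c⁻¹)) = 0 := by
    rw [← h1]
    abel
  exact sub_eq_zero.1 h2

lemma two' (h : FEG G A t) (g w : G) : t g (g * (w * g)) = t g w := by
  have h1 := h.two g (g * (w * g))
  rw [h1]
  congr 1
  group

lemma two'' (h : FEG G A t) (g w : G) : t g⁻¹ (g * (w * g)) = t g⁻¹ w := by
  have h1 := h.two g⁻¹ w
  rw [inv_inv] at h1
  exact h1.symm

/-- equation `H1` -/
lemma H1 (h : FEG G A t) (g w : G) : t g⁻¹ (w * g) + t g w - t g⁻¹ w - t g (g * w) = 0 := by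
  have h1 := h.D 1 1 g⁻¹ w
  simp only [mul_one, inv_inv, one_mul, inv_one, h.z1] at h1
  rw [h.two', h.two''] at h1
  rw [← h1]
  abel

lemma swapL (h : FEG G A t) (g w : G) : t w⁻¹ (g * w) = t g (g * w) := by
  have h1 := h.coin w⁻¹ g
  rw [inv_inv] at h1
  exact h1

/-- `t_{g⁻¹} = t_g` -/
lemma claim1 (h2 : ∀ x : A, x + x = 0 → x = 0) (h : FEG G A t) (g w : G) :
    t g⁻¹ w = t g w := by
  have e : ∀ g w : G, t w (w * g) - t w⁻¹ (g * w) = t g⁻¹ w - t g w := by
    intro g w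
    have h1 := h.H1 g w
    rw [← h.swapL g w] at h1
    have h3 : t g⁻¹ (w * g) = t w (w * g) := h.swapL w g
    rw [h3] at h1
    have h4 : t w (w * g) - t w⁻¹ (g * w) - (t g⁻¹ w - t g w) = 0 := by
      rw [← h1]
      abel
    exact sub_eq_zero.1 h4
  have e2 : ∀ g w : G, t w⁻¹ g - t w g = -(t g⁻¹ w - t g w) := by
    intro g w
    have h1 := e g w
    have h3 := e w g
    rw [← h.swapL g w, ← h3.symm.symm] at *
    rw [← h3, ← h1, h.swapL w g]
    abel
  have e3 := e2 g w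
  have e4 := e2 g w⁻¹
  rw [inv_inv, h.inv, h.inv] at e4
  have e5 : (t g⁻¹ w - t g w) + (t g⁻¹ w - t g w) = 0 := by
    have : t w⁻¹ g - t w g + (t w g - t w⁻¹ g) = 0 := by abel
    rw [e3, e4] at this
    have h6 := neg_eq_zero.2 this
    rw [← h6]
    abel
  exact sub_eq_zero.1 (h2 _ e5)

/-- translation -/
lemma translate (h : FEG G A t) (e : G) : FEG G A (fun a w => t (a * e) w - t e w) where
  z0 a := by simp [h.z0]
  z1 w := by simp
  inv a w := by simp only [h.inv]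
  coin a c := by
    have h1 := h.coin (a * e) (c * e)
    have h3 : c * e * (a * e)⁻¹ = c * a⁻¹ := by group
    rw [h3] at h1
    simp only [h1]
  D a B c w := by
    have h1 := h.D (a * e) (B * e) (c * e) w
    have h3 : w * (a * e) * (c * e)⁻¹ = w * a * c⁻¹ := by group
    have h4 : B * e * (c * e)⁻¹ * (a * e) = B * c⁻¹ * a * e := by group
    have h5 : ∀ v : G, B * c⁻¹ * a * e * (B * e)⁻¹ * v = B * c⁻¹ * a * B⁻¹ * v := by
      intro v
      group
    rw [h3, h4, h5, h5] at h1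
    rw [← h1]
    abel

/-- the index is invariant under left multiplication by squares -/
lemma index_sq (h2 : ∀ x : A, x + x = 0 → x = 0) (h : FEG G A t) (g e w : G) :
    t (g * g * e) w = t e w := by
  have h1 := claim1 h2 (h.translate (g * e)) g w
  have h3 : t (g⁻¹ * (g * e)) w - t (g * e) w = t (g * (g * e)) w - t (g * e) w := h1
  rw [inv_mul_cancel_left] at h3
  have h4 := sub_left_injective h3
  rw [mul_assoc]
  exact h4.symm

lemma index_conj (h2 : ∀ x : A, x + x = 0 → x = 0) (h : FEG G A t) (g k w : G) :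
    t (k * g * k⁻¹) w = t g w := by
  have e : k * g * k⁻¹ = k * k * ((k⁻¹ * g) * (k⁻¹ * g) * g⁻¹) := by group
  rw [e, h.index_sq h2, h.index_sq h2, h.claim1 h2]

lemma index_comm (h2 : ∀ x : A, x + x = 0 → x = 0) (h : FEG G A t) (g k w : G) :
    t (k * g) w = t (g * k) w := by
  have e : k * g = k * (g * k) * k⁻¹ := by group
  rw [e, h.index_conj h2]

/-- `t_h (h v) = t_h (v h)` -/
lemma arg_comm (h2 : ∀ x : A, x + x = 0 → x = 0) (h : FEG G A t) (g w : G) :
    t g (g * w) = t g (w * g) := by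
  have h1 := h.H1 g w
  rw [h.claim1 h2, h.claim1 h2] at h1
  have h3 : t g (w * g) - t g (g * w) = 0 := by
    rw [← h1]
    abel
  exact (sub_eq_zero.1 h3).symm

lemma arg_conj (h2 : ∀ x : A, x + x = 0 → x = 0) (h : FEG G A t) (k g : G) :
    t k (k * g * k⁻¹) = t k g := by
  rw [mul_assoc, h.arg_comm h2, inv_mul_cancel_right]

lemma self (h : FEG G A t) (g : G) : t g g = 0 := by
  have h1 := h.coin 1 g
  rw [inv_one, mul_one, h.z1] at h1
  exact h1.symm

lemma conj_self (h2 : ∀ x : A, x + x = 0 → x = 0) (h : FEG G A t) (g k : G) :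
    t g (k * g * k⁻¹) = 0 := by
  rw [← h.index_conj h2 g k]
  exact h.self _

/-- `t_{k g} ([k, g]) = 2 t_k (g)` -/
lemma eqI (h2 : ∀ x : A, x + x = 0 → x = 0) (h : FEG G A t) (g k : G) :
    t (k * g) (k * g * k⁻¹ * g⁻¹) = t k g + t k g := by
  have h1 := h.D 1 k g⁻¹ g⁻¹
  simp only [mul_one, inv_inv, inv_mul_cancel, h.z1, h.z0, h.inv, h.claim1 h2,
    h.conj_self h2] at h1
  have h3 : t (k * g) (k * g * k⁻¹) = t k g := by
    rw [← h.arg_conj h2 k g]
    exact (h.coin k (k * g)).symm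
  rw [h3] at h1
  have h4 : t k g + t k g - t (k * g) (k * g * k⁻¹ * g⁻¹) = 0 := by
    rw [← h1]
    abel
  exact (sub_eq_zero.1 h4).symm

/-- `(t_k - t_g) ([k, g⁻¹]) = 2 t_k (g)` -/
lemma eqIII (h2 : ∀ x : A, x + x = 0 → x = 0) (h : FEG G A t) (g k : G) :
    t k (k * g⁻¹ * k⁻¹ * g) - t g (k * g⁻¹ * k⁻¹ * g) = t k g + t k g := by
  have h1 := h.D 1 k g⁻¹ (k * g⁻¹ * k⁻¹)
  have e1 : k * g⁻¹ * k⁻¹ * 1 * g⁻¹⁻¹ = k * g⁻¹ * k⁻¹ * g := by group
  have e2 : k * g⁻¹⁻¹ * 1 * k⁻¹ * (k * g⁻¹ * k⁻¹ * g) = g := by group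
  have e3 : k * g⁻¹⁻¹ * 1 * k⁻¹ * (k * g⁻¹ * k⁻¹) = 1 := by group
  have e4 : k * g⁻¹⁻¹ * 1 = k * g := by group
  rw [e1, e2, e3, e4] at h1
  simp only [h.z1, h.z0, h.claim1 h2, h.arg_conj h2, h.inv, h.self] at h1
  have h3 : t (k * g) g = t k g := by
    rw [h.index_comm h2]
    have h4 := h.coin k (g * k)
    rw [mul_inv_cancel_right] at h4
    exact h4.symm
  rw [h3] at h1
  have h5 : t k (k * g⁻¹ * k⁻¹ * g) - t g (k * g⁻¹ * k⁻¹ * g) - (t k g + t k g) = 0 := by
    rw [← neg_eq_zero, ← h1]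
    abel
  exact sub_eq_zero.1 h5

/-- the functional equations over a group have only the zero solution -/
theorem eq_zero (h2 : ∀ x : A, x + x = 0 → x = 0) (h : FEG G A t) (k g : G) : t k g = 0 := by
  have hI := h.eqI h2 g k
  have hI' := h.eqI h2 k g
  have hIII := h.eqIII h2 g⁻¹ k
  have hIII' := h.eqIII h2 k⁻¹ g
  rw [inv_inv] at hIII hIII'
  -- write `u = [k, g]`
  have e : g * k * g⁻¹ * k⁻¹ = (k * g * k⁻¹ * g⁻¹)⁻¹ := by group
  rw [e, h.inv, ← h.index_comm h2 g k] at hI'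
  rw [e, h.inv, h.inv, h.inv, h.claim1 h2] at hIII'
  rw [h.inv, h.claim1 h2] at hIII
  set x := t k g with hx
  set y := t g k with hy
  have hxy : x + x = y + y := by rw [← hI, ← hI']
  have h3 : (x + x) + (y + y) = 0 := by
    rw [← hIII, ← hIII']
    abel
  rw [← hxy] at h3
  exact h2 _ (h2 _ h3)

end FEG

end H16UFL
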