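import Pool.Agent.H16.UFL.Basic
import Pool.Agent.H16.UFL.Grp

/-!
# The functional equations over a loop with the antiautomorphic inverse property
-/

namespace H16UFL

universe u v

section defs

variable {Q : Type u} [Lp Q]

/-- `R_{c'} R_{a'}⁻¹` -/
def rho (a c w : Q) : Q := (w / iv a) * iv c

/-- the solution `D` of `D a' = B c'` -/
def fourth (a B c : Q) : Q := (B * iv c) / iv a

/-- `L_D L_B⁻¹` -/
def lam (a B c w : Q) : Q := fourth a B c * ldiv B w

end defs

/-- the functional equations for `t : Q → Q → A` over a loop -/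
structure FE (Q : Type u) [Lp Q] (A : Type v) [AddCommGroup A] (t : Q → Q → A) : Prop where
  z0 : ∀ a, t a 1 = 0
  z1 : ∀ w, t 1 w = 0
  inv : ∀ a w, t a (iv w) = t a w
  coin : ∀ a c, t a (c * iv a) = t c (c * iv a)
  D : ∀ a B c w,
    t B w - t a w + t c (rho a c w) - t B (rho a c w)
      + t (fourth a B c) (lam a B c (rho a c w)) - t c (lam a B c (rho a c w))
      + t a (lam a B c w) - t (fourth a B c) (lam a B c w) = 0

section aaip

variable {Q : Type u} [Lp Q] (hU : UF Q) (hA : AAIP Q)

include hA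

lemma iv_div (x y : Q) : iv (x / y) = ldiv (iv y) (iv x) := by
  apply eq_ldiv
  rw [← hA, div_mul_]

lemma iv_ldiv (x y : Q) : iv (ldiv x y) = iv y / iv x := by
  apply eq_div
  rw [← hA, mul_ldiv_]

include hU in
lemma iv_div_iv (x y : Q) : iv (iv x / iv y) = ldiv y x := by
  rw [iv_div hA, iv_iv hU, iv_iv hU]

end aaip

namespace FE

variable {Q : Type u} [Lp Q] {A : Type v} [AddCommGroup A] {t : Q → Q → A}

/-- the index is invariant under central elements -/
lemma index_central (h2 : ∀ x : A, x + x = 0 → x = 0) (hU : UF Q) (hA : AAIP Q)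
    (h : FE Q A t) {d : Q} (hd : IsCentral d) (a w : Q) : t (a * d) w = t a w := by
  have hc : iv (iv w / iv a) = ldiv a w := iv_div_iv hU hA w a
  have hF : fourth a (a * d) (iv w / iv a) = (w / iv a) * d := by
    unfold fourth
    rw [hc, hd.mul_cl, mul_ldiv_, hd.div_c]
  have hr : rho a (iv w / iv a) (iv w) = 1 := by
    unfold rho
    rw [mul_iv]
  have hda : ∀ x y : Q, (x * d) * (y * iv d) = x * y := by
    intro x y
    rw [hd.iv.mul_cr, hd.mul_cl, hd.mul_mul_iv]
  have hl1 : lam a (a * d) (iv w / iv a) 1 = w := by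
    unfold lam
    rw [hF]
    have : ldiv (a * d) 1 = iv a * iv d := by
      have := hd.iv_mul a
      exact this
    rw [this, hda, div_mul_]
  have hl2 : lam a (a * d) (iv w / iv a) (iv w) = 1 := by
    unfold lam
    rw [hF, hd.ldiv_cr, hda]
    have : ldiv a (iv w) = iv (w / iv a) := by
      rw [iv_div hA, iv_iv hU]
    rw [this, mul_iv]
  have hD := h.D a (a * d) (iv w / iv a) (iv w)
  rw [hr, hl1, hl2, hF, h.z0, h.z0, h.z0, h.z0, h.inv, h.inv] at hD
  have e1 : t (iv w / iv a) w = t a w := by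
    have h1 := h.coin a (iv w / iv a)
    rw [div_mul_, h.inv, h.inv] at h1
    exact h1.symm
  have e2 : t ((w / iv a) * d) w = t (a * d) w := by
    have h1 := h.coin (a * d) ((w / iv a) * d)
    rw [hd.iv_mul, hda, div_mul_] at h1
    exact h1.symm
  rw [e1, e2] at hD
  have h3 : (t (a * d) w - t a w) + (t (a * d) w - t a w) = 0 := by
    rw [← hD]
    abel
  exact sub_eq_zero.1 (h2 _ h3)

/-- `t_c (w) = t_c (c \ (w c'))` -/
lemma two (h : FE Q A t) (c w : Q) : t c w = t c (ldiv c (w * iv c)) := by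
  have hF : fourth 1 c c = 1 := by
    unfold fourth
    rw [mul_iv, iv_one, div_one_]
  have hr : rho 1 c w = w * iv c := by
    unfold rho
    rw [iv_one, div_one_]
  have hl : ∀ v : Q, lam 1 c c v = ldiv c v := by
    intro v
    unfold lam
    rw [hF, one_mul_]
  have hD := h.D 1 c c w
  rw [hr, hl, hl, hF, h.z1, h.z1, h.z1] at hD
  have h3 : t c w - t c (ldiv c (w * iv c)) = 0 := by
    rw [← hD]
    abel
  exact sub_eq_zero.1 h3

/-- the argument is invariant under central elements -/
lemma arg_central (h2 : ∀ x : A, x + x = 0 → x = 0) (hU : UF Q) (hA : AAIP Q)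
    (h : FE Q A t) {d : Q} (hd : IsCentral d) (B w : Q) : t B (w * d) = t B w := by
  have hi : ∀ a w : Q, t (a * d) w = t a w := fun a w => h.index_central h2 hU hA hd a w
  have hi0 : ∀ w : Q, t (iv d) w = 0 := by
    intro w
    have h1 := h.index_central h2 hU hA hd.iv 1 w
    rw [one_mul_, h.z1] at h1
    exact h1
  -- second differences
  have e1 : t B w - t B (w * d) - t B (w * d) + t B (w * d * d) = 0 := by
    have hF : fourth 1 B (iv d) = B * d := by
      unfold fourth
      rw [iv_iv hU, iv_one, div_one_]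
    have hr : rho 1 (iv d) w = w * d := by
      unfold rho
      rw [iv_iv hU, iv_one, div_one_]
    have hl : ∀ v : Q, lam 1 B (iv d) v = v * d := by
      intro v
      unfold lam
      rw [hF, hd.mul_cl, mul_ldiv_]
    have hD := h.D 1 B (iv d) w
    rw [hr, hl, hl, hF, h.z1, h.z1, hi0, hi0, hi, hi] at hD
    rw [← hD]
    abel
  -- periodicity
  have e2 : ∀ v : Q, t B ((v * iv d) * iv d) = t B v := by
    intro v
    have h1 := h.two B ((B * v) / iv B)
    have h3 := h.two (B * d) ((B * v) / iv B)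
    rw [div_mul_, ldiv_mul_] at h1
    rw [hd.iv_mul, hd.iv.mul_cr, div_mul_, hd.iv.ldiv_c, hd.ldiv_cr, ldiv_mul_, hi, hi] at h3
    rw [← h3, h1]
  have e3 : t B (w * d * d) = t B w := by
    have h1 := e2 (w * d * d)
    rw [hd.mul_mul_iv, hd.mul_mul_iv] at h1
    exact h1.symm
  rw [e3] at e1
  have h3 : (t B w - t B (w * d)) + (t B w - t B (w * d)) = 0 := by
    rw [← e1]
    abel
  exact (sub_eq_zero.1 (h2 _ h3)).symm

end FE

end H16UFL
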