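import Pool.Agent.H16.UFL.Ext

/-!
# Universally flexible loops which are towers of central extensions over diassociative loops
-/

namespace H16UFL

universe u

namespace CExt

variable {E Q : Type u} [Lp E] [Lp Q] (C : CExt E Q) (hA : AAIP Q)

/-- the defect as a function on the quotient -/
noncomputable def t (a w : Q) : Additive C.K :=
  Additive.ofMul (C.T hA (Function.surjInv C.hp.surj a) (Function.surjInv C.hp.surj w))

lemma t_eq (a w : E) : C.t hA (C.p a) (C.p w) = Additive.ofMul (C.T hA a w) := by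
  unfold t
  rw [C.T_congr hA (Function.surjInv_eq C.hp.surj (C.p a))
    (Function.surjInv_eq C.hp.surj (C.p w))]

lemma fe : FE Q (Additive C.K) (C.t hA) := by
  have hrho : ∀ a c w : E, C.p (rho a c w) = rho (C.p a) (C.p c) (C.p w) := by
    intro a c w
    unfold rho
    rw [C.hp.map_mul, C.hp.map_div, C.hp.map_iv, C.hp.map_iv]
  have hfourth : ∀ a B c : E, C.p (fourth a B c) = fourth (C.p a) (C.p B) (C.p c) := by
    intro a B c
    unfold fourth
    rw [C.hp.map_div, C.hp.map_mul, C.hp.map_iv, C.hp.map_iv]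
  have hlam : ∀ a B c w : E, C.p (lam a B c w) = lam (C.p a) (C.p B) (C.p c) (C.p w) := by
    intro a B c w
    unfold lam
    rw [C.hp.map_mul, C.hp.map_ldiv, hfourth]
  constructor
  · intro a
    obtain ⟨a, rfl⟩ := C.hp.surj a
    rw [← C.hp.map_one, C.t_eq, C.T_z0]
    rfl
  · intro w
    obtain ⟨w, rfl⟩ := C.hp.surj w
    rw [← C.hp.map_one, C.t_eq, C.T_z1]
    rfl
  · intro a w
    obtain ⟨a, rfl⟩ := C.hp.surj a
    obtain ⟨w, rfl⟩ := C.hp.surj w
    rw [← C.hp.map_iv, C.t_eq, C.t_eq, C.T_inv]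
  · intro a c
    obtain ⟨a, rfl⟩ := C.hp.surj a
    obtain ⟨c, rfl⟩ := C.hp.surj c
    rw [← C.hp.map_iv, ← C.hp.map_mul, C.t_eq, C.t_eq, C.T_coin]
  · intro a B c w
    obtain ⟨a, rfl⟩ := C.hp.surj a
    obtain ⟨B, rfl⟩ := C.hp.surj B
    obtain ⟨c, rfl⟩ := C.hp.surj c
    obtain ⟨w, rfl⟩ := C.hp.surj w
    simp only [← hrho, ← hfourth, ← hlam, C.t_eq]
    have h := congrArg Additive.ofMul (C.T_D hA a B c w)
    simp only [ofMul_mul, ofMul_inv, ofMul_one, ← sub_eq_add_neg] at h
    exact h

end CExt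

/-- the antiautomorphic inverse property for universally flexible towers -/
theorem aaip_of_tower {E : Type u} {i : Lp E} (hT : Tower E i) : UF E → AAIP E := by
  induction hT with
  | base Q i hD =>
    intro hU
    exact diassoc_aaip hU hD
  | ext E Q iE iQ p hp hcen h2 hQ ih =>
    intro hU
    have hUQ : UF Q := hp.uf hU
    have hA : AAIP Q := ih hUQ
    let C : CExt E Q := ⟨p, hp, hcen, hU⟩
    have h2' : ∀ x : Additive C.K, x + x = 0 → x = 0 := by
      intro x hx
      have h3 : x.toMul.1 = 1 := h2 x.toMul.1 x.toMul.2 (congrArg Subtype.val hx)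
      exact congrArg Additive.ofMul (Subtype.ext h3 : x.toMul = 1)
    have h0 : ∀ a w : Q, C.t hA a w = 0 :=
      FE.eq_zero_of_tower h2' hQ hUQ hA _ (C.fe hA)
    have h1 : ∀ a w : E, C.T hA a w = 1 := by
      intro a w
      have h4 := h0 (p a) (p w)
      have h5 : C.t hA (p a) (p w) = Additive.ofMul (C.T hA a w) := C.t_eq hA a w
      rw [h5] at h4
      exact h4
    intro x y
    have h6 := C.tau_eq_T hA (iv y) (x * y)
    rw [h1, C.act_one] at h6
    unfold CExt.tau at h6
    rw [iv_iv hU, mul_div_] at h6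
    exact h6.symm

/-- the antiautomorphic inverse property implies the semi-automorphic one -/
lemma saip_of_aaip {E : Type u} [Lp E] (hU : UF E) (hA : AAIP E) : SAIP E := by
  intro x y
  rw [hA, hA, flex hU]

end H16UFL
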