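import Pool.Agent.H16.UFL.FE

/-!
# Passing to a quotient, and the case of a diassociative loop
-/

namespace H16UFL

universe u v

section epi

variable {E Q : Type u} [Lp E] [Lp Q] {p : E → Q} (hp : IsEpi p)

include hp

lemma IsEpi.map_one : p 1 = 1 := by
  apply lcancel (a := p 1)
  rw [← hp.map_mul, mul_one_, mul_one_]

lemma IsEpi.map_ldiv (a b : E) : p (ldiv a b) = ldiv (p a) (p b) := by
  apply eq_ldiv
  rw [← hp.map_mul, mul_ldiv_]

lemma IsEpi.map_div (a b : E) : p (a / b) = p a / p b := by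
  apply eq_div
  rw [← hp.map_mul, div_mul_]

lemma IsEpi.map_iv (a : E) : p (iv a) = iv (p a) := by
  unfold iv
  rw [hp.map_ldiv, hp.map_one]

lemma IsEpi.map_circ (a b x y : E) : p (circ a b x y) = circ (p a) (p b) (p x) (p y) := by
  unfold circ
  rw [hp.map_mul, hp.map_div, hp.map_ldiv]

lemma IsEpi.uf (hU : UF E) : UF Q := by
  intro a b x y
  obtain ⟨a, rfl⟩ := hp.surj a
  obtain ⟨b, rfl⟩ := hp.surj b
  obtain ⟨x, rfl⟩ := hp.surj x
  obtain ⟨y, rfl⟩ := hp.surj y
  rw [← hp.map_circ, ← hp.map_circ, ← hp.map_circ, ← hp.map_circ, hU a b x y]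

lemma IsEpi.aaip (hA : AAIP E) : AAIP Q := by
  intro x y
  obtain ⟨x, rfl⟩ := hp.surj x
  obtain ⟨y, rfl⟩ := hp.surj y
  rw [← hp.map_mul, ← hp.map_iv, ← hp.map_iv, ← hp.map_iv, ← hp.map_mul, hA x y]

lemma IsEpi.exists_ker {a b : E} (h : p a = p b) : ∃ k : E, p k = 1 ∧ b = a * k := by
  refine ⟨ldiv a b, ?_, (mul_ldiv_ a b).symm⟩
  rw [hp.map_ldiv, h, ldiv_self_]

end epi

section descend

variable {E Q : Type u} [Lp E] [Lp Q] {p : E → Q} {A : Type v} [AddCommGroup A]
  {t : E → E → A}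

/-- a solution on `E` descends to the quotient by a central kernel -/
lemma FE.descend (hp : IsEpi p) (hcen : ∀ k : E, p k = 1 → IsCentral k)
    (h2 : ∀ x : A, x + x = 0 → x = 0) (hU : UF E) (hA : AAIP E) (h : FE E A t) :
    ∃ t' : Q → Q → A, FE Q A t' ∧ ∀ a w : E, t' (p a) (p w) = t a w := by
  have hs : ∀ q : Q, p (Function.surjInv hp.surj q) = q := Function.surjInv_eq hp.surj
  have key : ∀ a b w v : E, p a = p b → p w = p v → t a w = t b v := by
    intro a b w v hab hwv
    obtain ⟨k, hk, rfl⟩ := hp.exists_ker hab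
    obtain ⟨l, hl, rfl⟩ := hp.exists_ker hwv
    rw [h.index_central h2 hU hA (hcen k hk), h.arg_central h2 hU hA (hcen l hl)]
  have key2 : ∀ a w : E, t (Function.surjInv hp.surj (p a)) (Function.surjInv hp.surj (p w)) =
      t a w := fun a w => key _ _ _ _ (hs _) (hs _)
  refine ⟨fun a w => t (Function.surjInv hp.surj a) (Function.surjInv hp.surj w), ?_,
    fun a w => key2 a w⟩
  have hrho : ∀ a c w : E, p (rho a c w) = rho (p a) (p c) (p w) := by
    intro a c w
    unfold rho
    rw [hp.map_mul, hp.map_div, hp.map_iv, hp.map_iv]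
  have hfourth : ∀ a B c : E, p (fourth a B c) = fourth (p a) (p B) (p c) := by
    intro a B c
    unfold fourth
    rw [hp.map_div, hp.map_mul, hp.map_iv, hp.map_iv]
  have hlam : ∀ a B c w : E, p (lam a B c w) = lam (p a) (p B) (p c) (p w) := by
    intro a B c w
    unfold lam
    rw [hp.map_mul, hp.map_ldiv, hfourth]
  constructor
  · intro a
    obtain ⟨a, rfl⟩ := hp.surj a
    rw [← hp.map_one, key2, h.z0]
  · intro w
    obtain ⟨w, rfl⟩ := hp.surj w
    rw [← hp.map_one, key2, h.z1]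
  · intro a w
    obtain ⟨a, rfl⟩ := hp.surj a
    obtain ⟨w, rfl⟩ := hp.surj w
    rw [← hp.map_iv, key2, key2, h.inv]
  · intro a c
    obtain ⟨a, rfl⟩ := hp.surj a
    obtain ⟨c, rfl⟩ := hp.surj c
    rw [← hp.map_iv, ← hp.map_mul, key2, key2, h.coin]
  · intro a B c w
    obtain ⟨a, rfl⟩ := hp.surj a
    obtain ⟨B, rfl⟩ := hp.surj B
    obtain ⟨c, rfl⟩ := hp.surj c
    obtain ⟨w, rfl⟩ := hp.surj w
    simp only [← hrho, ← hfourth, ← hlam, key2]
    exact h.D a B c w

end descend

section diassoc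

variable {Q : Type u} [Lp Q]

lemma Gen.iv {x y a : Q} (h : Gen x y a) : Gen x y (iv a) := h.under Gen.unit

/-- the group generated by two elements of a diassociative loop -/
@[reducible] def genGroup (hU : UF Q) (hD : Diassociative Q) (x y : Q) :
    Group {a : Q // Gen x y a} where
  mul a b := ⟨a.1 * b.1, a.2.times b.2⟩
  mul_assoc a b c := Subtype.ext (hD x y _ _ _ a.2 b.2 c.2)
  one := ⟨1, Gen.unit⟩
  one_mul a := Subtype.ext (one_mul_ a.1)
  mul_one a := Subtype.ext (mul_one_ a.1)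
  inv a := ⟨iv a.1, a.2.iv⟩
  inv_mul_cancel a := Subtype.ext (iv_mul hU a.1)

lemma diassoc_ldiv (_hU : UF Q) (hD : Diassociative Q) {x y a b : Q} (ha : Gen x y a)
    (hb : Gen x y b) : ldiv a b = iv a * b := by
  symm
  apply eq_ldiv
  rw [← hD x y _ _ _ ha ha.iv hb, mul_iv, one_mul_]

lemma diassoc_div (hU : UF Q) (hD : Diassociative Q) {x y a b : Q} (ha : Gen x y a)
    (hb : Gen x y b) : a / b = a * iv b := by
  symm
  apply eq_div
  rw [hD x y _ _ _ ha hb.iv hb, iv_mul hU, mul_one_]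

/-- a diassociative loop has the antiautomorphic inverse property -/
lemma diassoc_aaip (hU : UF Q) (hD : Diassociative Q) : AAIP Q := by
  intro x y
  let _ := genGroup hU hD x y
  have h := mul_inv_rev (⟨x, Gen.fst⟩ : {a : Q // Gen x y a}) ⟨y, Gen.snd⟩
  exact congrArg Subtype.val h

/-- over a diassociative loop the functional equations have only the zero solution -/
lemma FE.eq_zero_of_diassoc {A : Type v} [AddCommGroup A] {t : Q → Q → A}
    (h2 : ∀ x : A, x + x = 0 → x = 0) (hU : UF Q) (hD : Diassociative Q) (h : FE Q A t)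
    (a w : Q) : t a w = 0 := by
  let _ := genGroup hU hD a w
  have hg : FEG {b : Q // Gen a w b} A (fun b v => t b.1 v.1) := by
    constructor
    · intro b
      exact h.z0 b.1
    · intro v
      exact h.z1 v.1
    · intro b v
      exact h.inv b.1 v.1
    · intro b c
      exact h.coin b.1 c.1
    · intro b B c v
      have hr : rho b.1 c.1 v.1 = (v * b * c⁻¹).1 := by
        unfold rho
        rw [diassoc_div hU hD v.2 b.2.iv, iv_iv hU]
        rfl
      have hF : fourth b.1 B.1 c.1 = (B * c⁻¹ * b).1 := by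
        unfold fourth
        rw [diassoc_div hU hD (B.2.times c.2.iv) b.2.iv, iv_iv hU]
        rfl
      have hl : ∀ u : {b : Q // Gen a w b}, lam b.1 B.1 c.1 u.1 =
          (B * c⁻¹ * b * B⁻¹ * u).1 := by
        intro u
        unfold lam
        rw [hF, diassoc_ldiv hU hD B.2 u.2, mul_assoc (B * c⁻¹ * b) B⁻¹ u]
        rfl
      have hDD := h.D b.1 B.1 c.1 v.1
      rw [hr, hl, hl, hF] at hDD
      exact hDD
  exact hg.eq_zero h2 ⟨a, Gen.fst⟩ ⟨w, Gen.snd⟩

end diassoc

/-- over a tower the functional equations have only the zero solution -/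
theorem FE.eq_zero_of_tower {A : Type v} [AddCommGroup A] (h2 : ∀ x : A, x + x = 0 → x = 0)
    {Q : Type u} {i : Lp Q} (hT : Tower Q i) :
    UF Q → AAIP Q → ∀ t : Q → Q → A, FE Q A t → ∀ a w : Q, t a w = 0 := by
  induction hT with
  | base Q i hD =>
    intro hU _ t h a w
    exact h.eq_zero_of_diassoc h2 hU hD a w
  | ext E Q iE iQ p hp hcen _ _ ih =>
    intro hU hA t h a w
    obtain ⟨t', ht', hval⟩ := h.descend hp hcen h2 hU hA
    rw [← hval]
    exact ih (hp.uf hU) (hp.aaip hA) t' ht' _ _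

end H16UFL
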